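import Mathlib
import Pool.Agent.H.MP_7934a7_lc.Thr.MajPos

/-!
# Few bad random strings: an oracle relative to which `NO_2 ∩ YO_2` is not low for `NO_2`

Let `e : ℕ → ℕ` bound the number of the positions of length `n` whose value is not the value of
the majority (the bad random strings of the `BPP^A` machine that asks for the value of one random
position), `e n ≤ 2 ^ (n / 2)`.

(1) If `e` is not polynomially bounded, there is an oracle `O` with at most `e n` bad positions, a
language `A` in `UP^O ∩ coUP^O` (so in `NO_2^O ∩ YO_2^O`) and a tally language (Majority) that is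
in `O_2^A` and in `BPP^A`, but is decided by no `S_2^O` verifier (so it is not in `NO_2^O`), even
if the verifier is computationally unbounded; with a bound for the lengths of its strings.

(2) If `e` is polynomially bounded, Majority is in `NP^O ∩ coNP^O` for all oracles of this kind.
-/

namespace Pool.Agent.Results.MP_7934a7_lc.ExceptionThreshold

open Pool.Agent.H.MP_7934a7_lc.Thr.Maj

/-- **Main theorem.** Let `e n ≤ 2 ^ (n / 2)`.
(1) For every sequence of verifiers with `len + cost ≤ 2^(n/8)` and `216 (len+1)^2 ≤ n e(n)` at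
infinitely many lengths (for instance all polynomially bounded ones, if `e` is not polynomially
bounded), there is an oracle with unique witnesses and at most `e n` bad positions, for which
Majority is decided by the protocol of three and eight positions, while every verifier of the
sequence violates the `S_2` condition for Majority at infinitely many lengths.
(2) Two verifiers of length `3 n (e(n)+1)` and cost `e(n)+1` decide Majority by proofs, resp. by
disproofs, for all such oracles. -/
theorem result (e : ℕ → ℕ) (he : ∀ n, e n ≤ 2 ^ (n / 2)) :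
    (∀ V : ℕ → Verifier,
      (∀ i N, ∃ n ≥ N, (V i).len n + (V i).cost n ≤ 2 ^ (n / 8) ∧
        216 * ((V i).len n + 1) ^ 2 ≤ n * e n) ∨
      (¬ PolyBounded e ∧ ∀ i, (V i).Poly) →
      ∃ O : World, Valid O ∧ Promise e O ∧ (∀ n ≥ 13, ThreeEight O n) ∧
        ∀ i N, ∃ n ≥ N, ¬ (V i).Correct O n) ∧
    (∃ V V' : Verifier,
      (∀ n, V.len n = (e n + 1) * (3 * n) ∧ V.cost n = e n + 1) ∧
      (∀ n, V'.len n = (e n + 1) * (3 * n) ∧ V'.cost n = e n + 1) ∧
      ∀ O, Valid O → Promise e O → ∀ n ≥ 3, V.ProvesYes O n ∧ V'.ProvesNo O n) := by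
  refine ⟨fun V hV => ?_, pos e he⟩
  have hV' : ∀ i N, ∃ n ≥ N, (V i).len n + (V i).cost n ≤ 2 ^ (n / 8) ∧
      216 * ((V i).len n + 1) ^ 2 ≤ n * e n := by
    rcases hV with hV | ⟨h1, h2⟩
    · exact hV
    · intro i N
      obtain ⟨d, hd⟩ := h2 i
      obtain ⟨n, hn, h3, h4⟩ := Pool.Agent.H.MP_7934a7_lc.Thr.growth h1 hd N
      refine ⟨n, hn, h3, le_trans ?_ h4⟩
      exact Nat.mul_le_mul_left _ (Nat.pow_le_pow_left (by omega) 2)
  exact neg he V hV'

end Pool.Agent.Results.MP_7934a7_lc.ExceptionThreshold
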