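import Mathlib
import Pool.Agent.H.MP_7934a7_lc.h89.Split
import Pool.Agent.H.MP_7934a7_lc.Thr.Neg
import Pool.Agent.H.MP_7934a7_lc.Thr.Pos
import Pool.Agent.H.MP_7934a7_lc.Thr.Growth

/-!
# Which questions to a language in `NO_2 ∩ YO_2` are harmless for `NO_2`

Let `e : ℕ → ℕ` bound the number of the exceptions (positions in `A`) of an instance outside `L`.

(1) If `e` is not polynomially bounded, there is an oracle `O` with at most `e n` exceptions and a
language `A` in `UP^O ∩ coUP^O` (so in `NO_2^O ∩ YO_2^O`) such that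

* `L` (the instances all of whose positions are in `A`) is in `coNP^O`, in `coRP^A`, and in
  `NO_2^A` by the verifier that asks the ONE question `(x, z) ∈ A?`, but is not in `NO_2^O`;
* the tally set `T` (some instance of length `n` is in `L`) is decided by the two-prover verifier
  that asks the ONE question `(y, z) ∈ A?`, but is not in `S_2^O`.

(2) If `e` is polynomially bounded, `L` and `T` are in `NP^O` for all oracles of this kind.

(3) Relative to every oracle `O` and for every language `B` in `NO_2^O ∩ YO_2^O`, questions to `B`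
that depend only on `(x, y)` or only on `z` are harmless for `NO_2`.
-/

namespace Pool.Agent.Results.MP_7934a7_lc.FewExceptions

open Pool.Agent.H.MP_7934a7_lc.h89.OneQ
open Pool.Agent.H.MP_7934a7_lc.Thr

/-- **Main theorem.** Let `e n < 2^n` for `n ≥ 1`.
(1) For every sequence of verifiers with `len + cost ≤ 2^(n/8)` and `216 (n+len+1)^2 ≤ n e(n)` at
infinitely many lengths (for instance all polynomially bounded ones, if `e` is not polynomially
bounded), there is an oracle with unique witnesses and at most `e n` exceptions, for which `L` is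
decided by the single question `(x, z) ∈ A?` and the tally set `T` by the single question
`(y, z) ∈ A?`, while every verifier of the sequence violates the `NO_2` condition for `L`, and the
`S_2` condition for `T`, at infinitely many lengths.
(2) Two verifiers of length `4 n (e(n)+1)`, `n + 4 n (e(n)+1)` and cost `e(n) + 1` satisfy the `NP`
conditions for `L` and `T` for all such oracles.
(3) Questions to a language `B` in `NO_2 ∩ YO_2` that depend only on `(x, y)` or only on `z` are
harmless, relative to every oracle. -/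
theorem result :
    (∀ e : ℕ → ℕ, (∀ n, 1 ≤ n → e n < 2 ^ n) →
      (∀ V : ℕ → Verifier,
        (∀ i N, ∃ n ≥ N, (V i).len n + (V i).cost n ≤ 2 ^ (n / 8) ∧
          216 * (n + (V i).len n + 1) ^ 2 ≤ n * e n) ∨
        (¬ PolyBounded e ∧ ∀ i, Poly (V i)) →
        ∃ O : World, Valid O ∧ PromiseE e O ∧ (∀ n, AskXZ O n) ∧ (∀ n, AskYZ O n) ∧
          (∀ i N, ∃ n ≥ N, ¬ (V i).NO2 O n {x | InL O n x}) ∧
          (∀ i N, ∃ n ≥ N, ¬ (V i).S2 O n (InT O n))) ∧
      (∃ V V' : Verifier,
        (∀ n, V.len n = (e n + 1) * (4 * n)) ∧ (∀ n, V.cost n = e n + 1) ∧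
        (∀ n, V'.len n = n + (e n + 1) * (4 * n)) ∧ (∀ n, V'.cost n = e n + 1) ∧
        ∀ O, Valid O → PromiseE e O → ∀ n, 1 ≤ n → ProvesL V O n ∧ ProvesT V' O n)) ∧
    (∀ (U : SplitVerifier) (V₁ V₂ : Verifier) (m r : ℕ → ℕ),
      (∀ n, ∀ k ≤ U.size n, V₁.len k ≤ m n ∧ V₂.len k ≤ m n) →
      (∀ n, ∀ k ≤ U.size n, V₁.cost k ≤ r n ∧ V₂.cost k ≤ r n) →
      ∃ V : Verifier,
        (∀ n, V.len n = U.len n + (U.cost n + (U.size n + 1)) * (1 + 2 * m n)) ∧
        (∀ n, V.cost n = U.cost n * (2 * r n + 3)) ∧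
        ∀ (O : World) (B : Lang) (n : ℕ) (S : Set (Ins n)),
          (∀ k ≤ U.size n, V₁.NO2 O k (B k) ∧ V₂.YO2 O k (B k)) →
          U.NO2 O B n S → V.NO2 O n S) := by
  refine ⟨fun e he => ⟨fun V hV => ?_, ?_⟩, split⟩
  · have hV' : ∀ i N, ∃ n ≥ N, (V i).len n + (V i).cost n ≤ 2 ^ (n / 8) ∧
        216 * (n + (V i).len n + 1) ^ 2 ≤ n * e n := by
      rcases hV with hV | ⟨h1, h2⟩
      · exact hV
      · intro i N
        obtain ⟨d, hd⟩ := h2 i
        exact growth h1 hd N
    obtain ⟨O, hO, hP, h⟩ := diagonal_e he (fun i => (V (i / 2), decide (i % 2 = 1)))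
      (fun i N => hV' (i / 2) N)
    refine ⟨O, hO, hP, askXZ_e he hO hP, askYZ_e he hO hP, fun i N => ?_, fun i N => ?_⟩
    · obtain ⟨n, hn, h'⟩ := h (2 * i + 1) N
      refine ⟨n, hn, ?_⟩
      have e1 : (2 * i + 1) / 2 = i := by omega
      have e2 : (2 * i + 1) % 2 = 1 := by omega
      simp only [e1, e2, decide_true, Good, if_true] at h'
      exact h'
    · obtain ⟨n, hn, h'⟩ := h (2 * i) N
      refine ⟨n, hn, ?_⟩
      have e1 : 2 * i / 2 = i := by omega
      have e2 : ¬ (2 * i) % 2 = 1 := by omega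
      simp only [e1, e2, decide_false, Good, Bool.false_eq_true, if_false] at h'
      exact h'
  · exact pos e fun n hn => lt_of_lt_of_le (he n hn)
      (Nat.pow_le_pow_right (by norm_num) (by omega))

end Pool.Agent.Results.MP_7934a7_lc.FewExceptions
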