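import Mathlib
import Pool.Agent.H.MP_7934a7_lc.QL.Thr
import Pool.Agent.H.MP_7934a7_lc.QL.Dual

/-!
# Logarithmic length is the exact threshold for harmless questions

Black-box model of `SmallClasses`. Let `s : ℕ → ℕ`.

(1) If `2 ^ s n` is polynomially bounded, then relative to every oracle and for all languages in
`NO_2 ∩ YO_2`: questions of length at most `s n` are harmless for `NO_2`, `YO_2`, `O_2` and `S_2`;
questions of every length are harmless if `z` has only `s n` bits (an `S_2` condition gives an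
`NO_2` verifier without questions) or if `y` has only `s n` bits (then it gives a `YO_2` verifier).

(2) If `2 ^ s n` is not polynomially bounded, then one question of length `s n` by a verifier whose
strings `y`, `z` have length `s n` leads out of `S_2`, relative to some oracle and for a language
with unique certificates.

(3) Languages with unique certificates are in `NO_2 ∩ YO_2`.
-/

namespace Pool.Agent.Results.MP_7934a7_lc.QuestionLength

open Pool.Agent.H.MP_7934a7_lc.h84.SC

/-- **Main theorem.** -/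
theorem result (s : ℕ → ℕ) :
    (PolyBdd (fun n => 2 ^ s n) → ∀ V V' : Verifier, V.Poly → V'.Poly →
      ∀ U : Verifier₂, U.Poly →
        ((∀ n, U.size n ≤ s n) → ∃ W : Verifier, W.Poly ∧ ∀ (O B : Lang) (n : ℕ),
          (∀ k ≤ U.size n, NO2 (V.value O k) (B k) ∧ YO2 (V'.value O k) (B k)) →
            ∀ L : Str n → Bool,
              (NO2 (U.value O B n) L → NO2 (W.value O n) L) ∧
              (YO2 (U.value O B n) L → YO2 (W.value O n) L) ∧
              (O2 (U.value O B n) L → O2 (W.value O n) L) ∧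
              (S2 (U.value O B n) L → S2 (W.value O n) L)) ∧
        ((∀ n, UsesOnly U (s n) n) → ∃ W : Verifier, W.Poly ∧ ∀ (O B : Lang) (n : ℕ),
          (∀ k ≤ U.size n, NO2 (V.value O k) (B k) ∧ YO2 (V'.value O k) (B k)) →
            ∀ L : Str n → Bool, S2 (U.value O B n) L → NO2 (W.value O n) L) ∧
        ((∀ n, UsesOnlyY U (s n) n) → ∃ W : Verifier, W.Poly ∧ ∀ (O B : Lang) (n : ℕ),
          (∀ k ≤ U.size n, NO2 (V.value O k) (B k) ∧ YO2 (V'.value O k) (B k)) →
            ∀ L : Str n → Bool, S2 (U.value O B n) L → YO2 (W.value O n) L)) ∧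
    (PolyBdd s → ¬ PolyBdd (fun n => 2 ^ s n) →
      ∃ U : Verifier₂, U.Poly ∧ (∀ n, U.len n = s n ∧ U.cost n = 1 ∧ U.size n = s n) ∧
        ∀ V : ℕ → Verifier, (∀ i, (V i).Poly) →
          ∃ O B : Lang, Certified O B ∧ ∃ T : ℕ → Bool,
            (∀ n, O2 (U.value O B n) (fun _ => T n)) ∧
            ∀ i N, ∃ n ≥ N, ¬ S2 ((V i).value O n) (fun _ => T n)) ∧
    (∃ V V' : Verifier, V.Poly ∧ V'.Poly ∧ ∀ O B : Lang, Certified O B →
      ∀ k, NO2 (V.value O k) (B k) ∧ YO2 (V'.value O k) (B k)) := by
  refine ⟨fun hs V V' h h' U hU => ⟨fun hUs => ?_, fun hUs => ?_, fun hUs => ?_⟩,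
    fun hs hs' => ?_, ?_⟩
  · exact short_questions s hs V V' h h' U hU hUs
  · exact short_strings s hs V V' h h' U hU hUs
  · exact short_strings_y s hs V V' h h' U hU hUs
  · exact ⟨askLen s, ⟨hs, PolyBdd.const 1, hs⟩, fun _ => ⟨rfl, rfl, rfl⟩,
      fun V hV => long_questions s hs' V hV⟩
  · obtain ⟨V, V', h1, h2, h3⟩ := certified_classes
    have hp : ∀ (V : Verifier), (∀ k, V.len k = 4 * k ∧ V.cost k = 1) → V.Poly := by
      intro V hV
      refine ⟨?_, ?_⟩
      · exact ((PolyBdd.const 4).mul PolyBdd.id).mono (fun n => ((hV n).1).le)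
      · exact (PolyBdd.const 1).mono (fun n => ((hV n).2).le)
    exact ⟨V, V', hp V h1, hp V' h2, h3⟩

end Pool.Agent.Results.MP_7934a7_lc.QuestionLength
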