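import Mathlib
import Pool.Agent.H.MP_7934a7_lc.h84.Lowness

/-!
# Small classes of languages in `NO_2 ∩ YO_2` are low for `NO_2`, and larger classes are not

Black-box model. Let `H k` be nonempty sets of functions `{0,1}^k → {0,1}`.

(1) If `|H k| ≤ 2^poly(k)` (for instance circuits of polynomial size), then relative to every oracle
all languages of `NO_2 ∩ YO_2` that lie in `H` are in `O_2`, and questions to them, of every kind,
are harmless for `NO_2`, `YO_2`, `O_2` and `S_2`.

(2) Otherwise there are an oracle and a language in `H` with unique certificates that is not in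
`O_2`.

(3) Languages with unique certificates are in `NO_2 ∩ YO_2`.

(4) If `H k` contains all functions that vanish off `S k`, where the size of `S k` is not
polynomially bounded, then there are an oracle and a language in `H` with unique certificates that
is not low: one question to it decides, in the `O_2` sense, a tally set that is not in `S_2`.
-/

namespace Pool.Agent.Results.MP_7934a7_lc.SmallClasses

open Pool.Agent.H.MP_7934a7_lc.h84.SC

/-- **Main theorem.** -/
theorem result (H : Family) (hne : ∀ k, (H k).Nonempty) :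
    (Small H → ∀ V V' : Verifier, V.Poly → V'.Poly →
      ∃ W : Verifier, W.Poly ∧
        (∀ (O B : Lang) (k : ℕ), B k ∈ H k →
          NO2 (V.value O k) (B k) → YO2 (V'.value O k) (B k) →
            ∃ a, Forces (W.value O k) (B k) a) ∧
        ∀ U : Verifier₂, U.Poly → ∃ W' : Verifier, W'.Poly ∧ ∀ (O B : Lang) (n : ℕ),
          (∀ k ≤ U.size n, B k ∈ H k ∧ NO2 (V.value O k) (B k) ∧ YO2 (V'.value O k) (B k)) →
            ∀ L : Str n → Bool,
              (NO2 (U.value O B n) L → NO2 (W'.value O n) L) ∧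
              (YO2 (U.value O B n) L → YO2 (W'.value O n) L) ∧
              (O2 (U.value O B n) L → O2 (W'.value O n) L) ∧
              (S2 (U.value O B n) L → S2 (W'.value O n) L)) ∧
    (¬ Small H → ∀ V : ℕ → Verifier, (∀ i, (V i).Poly) →
      ∃ O B : Lang, (∀ k, B k ∈ H k) ∧ Certified O B ∧
        ∀ i N, ∃ k ≥ N, ¬ O2 ((V i).value O k) (B k)) ∧
    (∃ V V' : Verifier, V.Poly ∧ V'.Poly ∧ ∀ O B : Lang, Certified O B →
      ∀ k, NO2 (V.value O k) (B k) ∧ YO2 (V'.value O k) (B k)) ∧
    (∀ S : (k : ℕ) → Finset (Str k), ¬ PolyBdd (fun k => (S k).card) →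
      (∀ (k : ℕ) (c : Str k → Bool), (∀ x ∉ S k, c x = false) → c ∈ H k) →
      ∃ U : Verifier₂, U.Poly ∧ (∀ n, U.cost n = 1) ∧
        ∀ V : ℕ → Verifier, (∀ i, (V i).Poly) →
          ∃ O B : Lang, (∀ k, B k ∈ H k) ∧ Certified O B ∧
            ∃ T : ℕ → Bool, (∀ n, O2 (U.value O B n) (fun _ => T n)) ∧
              ∀ i N, ∃ n ≥ N, ¬ S2 ((V i).value O n) (fun _ => T n)) := by
  refine ⟨fun hH V V' h h' => part_one H hne hH V V' h h',
    fun hH V hV => part_two H hne hH V hV, ?_, fun S hS hSH => ?_⟩
  · obtain ⟨V, V', h1, h2, h3⟩ := certified_classes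
    have hp : ∀ (V : Verifier), (∀ k, V.len k = 4 * k ∧ V.cost k = 1) → V.Poly := by
      intro V hV
      refine ⟨?_, ?_⟩
      · exact ((PolyBdd.const 4).mul PolyBdd.id).mono (fun n => ((hV n).1).le)
      · exact (PolyBdd.const 1).mono (fun n => ((hV n).2).le)
    exact ⟨V, V', hp V h1, hp V' h2, h3⟩
  · refine ⟨askOne S, ⟨PolyBdd.id, PolyBdd.const 1, PolyBdd.id⟩, fun _ => rfl, fun V hV => ?_⟩
    obtain ⟨O, B, g1, g2, T, g3, g4⟩ := part_three S hS V hV
    exact ⟨O, B, fun k => hSH k (B k) (g1 k), g2, T, g3, g4⟩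

end Pool.Agent.Results.MP_7934a7_lc.SmallClasses
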